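import Pool.Agent.Helper82.EN.Stmts2
import Pool.Agent.Helper77.ES.BN
import Pool.Agent.Helper52.ES.LINK

set_option autoImplicit false

/-! # ENCODING BY TM, module RED: NP-hardness -/

namespace Pool.Agent.Helper82.EN

open Function
open Pool.Agent.Helper58 (PTf Coded)
open Pool.Agent.Helper52.ES (Wr EncI link bn wr_pair wr_list code_injective code_eq_wr)
open Pool.Agent.Helper53.CL (Nae poly_inNP_reduces)

instance red_encI : EncI (Fin 5) :=
  ⟨fun a b h => Fin.ext ((inferInstance : EncI ℕ).inj (a₁ := (a : ℕ)) (a₂ := (b : ℕ)) h)⟩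

/-- lists of letters -/
theorem red_list {γ : Type} [Pool.Agent.Helper58.Enc γ] (l : γ → List (Fin 5))
    (h : PTf (fun x => (l x).map Fin.val)) : PTf (fun x => (⟨l x⟩ : Wr (List (Fin 5)))) := by
  rw [wr_list]
  have h1 : PTf (fun n : ℕ => (⟨n⟩ : Wr ℕ)) := bn.un ℕ (fun n => n) PTf.id
  have h2 : PTf (fun x => ((l x).map Fin.val).map (fun n => (⟨n⟩ : Wr ℕ))) := by
    fun_prop
  refine h2.recode (i := fun c => c) (fun _ => rfl) (fun x => ?_)
  generalize l x = m
  induction m with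
  | nil => rfl
  | cons a m ih =>
    rw [List.map_cons, List.map_cons, List.map_cons, Pool.Agent.Helper58.enc_lcons,
      Pool.Agent.Helper58.enc_lcons, ih]
    rfl

/-- the bound for the exponent -/
def red_m (l : List (ℕ × ℕ × ℕ)) : ℕ :=
  nst (nver l) (edges l) + (xs (nver l) (edges l)).length

/-- the instance -/
def red_F (l : List (ℕ × ℕ × ℕ)) : Inst :=
  (xs (nver l) (edges l) ++ (PP (lg (red_m l))).hard,
    ys (nver l) (edges l) ++ (PP (lg (red_m l))).hard, nst (nver l) (edges l))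

theorem red_ptf (hPTH : ST_PTH) (hPTR : ST_PTR) :
    PTf (fun l : List (ℕ × ℕ × ℕ) => (⟨red_F l⟩ : Wr Inst)) := by
  obtain ⟨hx, hy, hn⟩ := hPTR
  have hlen : PTf (fun l : List (ℕ × ℕ × ℕ) => (xs (nver l) (edges l)).length) := by
    have h := PTf.length hx
    refine h.congr (fun l => ?_)
    rw [List.length_map]
  have hm : PTf red_m := PTf.add hn hlen
  have hh : PTf (fun l : List (ℕ × ℕ × ℕ) => (PP (lg (red_m l))).hard.map Fin.val) :=
    PTf.comp (g := fun m : ℕ => (PP (lg m)).hard.map Fin.val) hPTH hm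
  have h1 : PTf (fun l : List (ℕ × ℕ × ℕ) =>
      (⟨xs (nver l) (edges l) ++ (PP (lg (red_m l))).hard⟩ : Wr (List (Fin 5)))) := by
    apply red_list
    refine (PTf.append hx hh).congr (fun l => ?_)
    rw [List.map_append]
  have h2 : PTf (fun l : List (ℕ × ℕ × ℕ) =>
      (⟨ys (nver l) (edges l) ++ (PP (lg (red_m l))).hard⟩ : Wr (List (Fin 5)))) := by
    apply red_list
    refine (PTf.append hy hh).congr (fun l => ?_)
    rw [List.map_append]
  have h3 : PTf (fun l : List (ℕ × ℕ × ℕ) => (⟨nst (nver l) (edges l)⟩ : Wr ℕ)) :=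
    bn.un _ _ hn
  unfold red_F
  exact (wr_pair _ _).2 (PTf.pair h1 ((wr_pair _ _).2 (PTf.pair h2 h3)))

theorem red_iff (hLB : ST_LB) (hCOL : ST_COL) (hFST : ST_FSTC) (hG1 : ST_GL1) (hG3 : ST_GL3)
    (hSTR : ST_STR) (L : Inst → Prop) (hL1 : ∀ I, EncFST I → L I) (hL2 : ∀ I, L I → EncTM I)
    (l : List (ℕ × ℕ × ℕ)) : (∃ h : ℕ → Bool, ∀ t ∈ l, Nae h t) ↔ L (red_F l) := by
  obtain ⟨hc, hv⟩ := hCOL l
  obtain ⟨hf, hlen, hle⟩ := hFST (nver l) (edges l) hv
  rw [hc, ← hf]
  have hlt : red_m l < 2 ^ lg (red_m l) := by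
    refine lt_of_lt_of_le (Nat.lt_size_self (red_m l)) ?_
    exact Nat.pow_le_pow_right (by norm_num) (Nat.le_succ _)
  have h1l : 1 ≤ lg (red_m l) := Nat.succ_le_succ (Nat.zero_le _)
  constructor
  · intro h
    apply hL1
    refine hG1 _ _ _ _ hle ?_ h
    refine (hSTR (PP (lg (red_m l)))).2.2 ?_
    show 0 < 240000 * lg (red_m l)
    omega
  · intro h
    have h2 := hL2 _ h
    refine hG3 hLB _ _ _ _ h1l hlen ?_ ?_ h2
    · unfold red_m at hlt ⊢
      omega
    · unfold red_m at hlt ⊢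
      omega

/-- module RED -/
theorem st_RED : ST_RED := by
  intro hLB hCOL hFST hG1 _ hG3 hPTH hPTR hSTR L hL1 hL2 L' hL'
  obtain ⟨f, hf, hsat⟩ := poly_inNP_reduces (code_injective (α := List Bool)) hL'
  refine ⟨fun w => red_F (f ⟨w⟩), ?_, ?_⟩
  · rw [link]
    have h2 : PTf (fun x : Wr (List Bool) => (Pool.Agent.Helper58.enc x).code) :=
      PTf.code PTf.id
    have h3 : PTf (fun x : Wr (List Bool) =>
        (⟨x.val⟩ : Coded (Pool.Agent.Helper52.Poly.code : List Bool → List Bool)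
          code_injective)) := by
      refine h2.recode (i := fun c => c) (fun _ => rfl) (fun x => ?_)
      show Pool.Agent.Helper58.enc (Pool.Agent.Helper52.Poly.code x.val) =
        Pool.Agent.Helper58.enc ((Pool.Agent.Helper58.enc x).code)
      rw [code_eq_wr]
    have h4 : PTf (fun x : Wr (List Bool) => f ⟨x.val⟩) := PTf.comp (g := f) hf h3
    exact PTf.comp (g := fun l : List (ℕ × ℕ × ℕ) => (⟨red_F l⟩ : Wr Inst))
      (red_ptf hPTH hPTR) h4
  · intro w
    rw [← hsat ⟨w⟩]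
    exact red_iff hLB hCOL hFST hG1 hG3 hSTR L hL1 hL2 (f ⟨w⟩)

end Pool.Agent.Helper82.EN
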